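import Mathlib
import Pool.Agent.Lib_helper33.ASM.TStmts

/-!
# T2a: the factorial moment measures of the Poisson process

The factorial moment measures of a Poisson process of intensity one (given by the laws of its
counts) are at most Lebesgue measure.
-/

set_option autoImplicit false
open MeasureTheory ProbabilityTheory Set Filter Topology
open scoped NNReal ENNReal

namespace Pool.Agent.Lib_helper35.ASM

open Pool.Agent.Lib_helper33.ASM

/-- the mean of the Poisson law -/
lemma poisson_mean (v : ℝ≥0) : ∫⁻ n : ℕ, (n : ℝ≥0∞) ∂(poissonMeasure v) = v := by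
  have tot : ∑' n, poissonMeasure v {n} = 1 := by
    have := measure_univ (μ := poissonMeasure v)
    rw [← this, ← MeasureTheory.lintegral_one, MeasureTheory.lintegral_countable']
    simp
  rw [MeasureTheory.lintegral_countable']
  have key : ∀ n : ℕ, (((n + 1 : ℕ)) : ℝ≥0∞) * poissonMeasure v {n + 1}
      = v * poissonMeasure v {n} := by
    intro n
    rw [poissonMeasure_singleton, poissonMeasure_singleton]
    rw [← ENNReal.ofReal_natCast, ← ENNReal.ofReal_coe_nnreal, ← ENNReal.ofReal_mul (by positivity),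
      ← ENNReal.ofReal_mul (by positivity)]
    congr 1
    rw [Nat.factorial_succ]
    have h2 : (n.factorial : ℝ) ≠ 0 := by exact_mod_cast n.factorial_ne_zero
    have h3 : ((n + 1 : ℕ) : ℝ) ≠ 0 := by positivity
    push_cast at h3 ⊢
    field_simp
    ring
  rw [← Summable.sum_add_tsum_nat_add' (k := 1) ENNReal.summable]
  simp_rw [key]
  rw [ENNReal.tsum_mul_left, tot]
  simp

lemma toENNReal_NN {d : ℕ} (x : ℕ → Sp d) (A : Set (Sp d)) :
    ((NN x A : ℕ∞) : ℝ≥0∞) = ∑' n, A.indicator (fun _ => (1 : ℝ≥0∞)) (x n) := by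
  rw [NN, ← ENNReal.tsum_set_one, tsum_subtype {n | x n ∈ A} (fun _ => (1 : ℝ≥0∞))]; rfl

section
variable {d : ℕ} {p : ℝ} {Ω : Type} [MeasurableSpace Ω] {P : Measure Ω}
  {X : ℕ → Ω → Sp d} {c : ℕ → Ω → Bool}

lemma measurable_NN (hX : ∀ n, Measurable (X n)) {A : Set (Sp d)} (hA : MeasurableSet A) :
    Measurable (fun ω => ((NN (fun n => X n ω) A : ℕ∞) : ℝ≥0∞)) := by
  simp_rw [toENNReal_NN]
  exact Measurable.tsum fun n => (measurable_const.indicator hA).comp (hX n)

lemma measurableSet_NN (hX : ∀ n, Measurable (X n)) {A : Set (Sp d)} (hA : MeasurableSet A)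
    (k : ℕ) : MeasurableSet {ω | NN (fun n => X n ω) A = k} := by
  have : {ω | NN (fun n => X n ω) A = k}
      = (fun ω => ((NN (fun n => X n ω) A : ℕ∞) : ℝ≥0∞)) ⁻¹' {(k : ℝ≥0∞)} := by
    ext ω
    simp only [mem_ofPred_eq, mem_preimage, mem_singleton_iff]
    rw [← ENat.toENNReal_coe, ENat.toENNReal_inj]
  rw [this]
  exact measurable_NN hX hA (measurableSet_singleton _)

/-- number of points in `A` as a natural number (`0` if infinite) -/
noncomputable def V (X : ℕ → Ω → Sp d) (A : Set (Sp d)) (ω : Ω) : ℕ :=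
  (NN (fun n => X n ω) A).toNat

lemma measurable_V (hX : ∀ n, Measurable (X n)) {A : Set (Sp d)} (hA : MeasurableSet A) :
    Measurable (V X A) := by
  have : V X A = fun ω => (((NN (fun n => X n ω) A : ℕ∞) : ℝ≥0∞).toReal).toNNReal |> fun x => ⌊x⌋₊ := by
    funext ω
    unfold V
    rcases eq_or_ne (NN (fun n => X n ω) A) ⊤ with h | h
    · simp [h]
    · obtain ⟨k, hk⟩ := ENat.ne_top_iff_exists.1 h
      rw [← hk]
      simp
  rw [this]
  exact Nat.measurable_floor.comp (measurable_NN hX hA).ennreal_toReal.real_toNNReal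

lemma counts_one (h : IsColouredPoisson P p X c) {A : Set (Sp d)} (hA : MeasurableSet A)
    (hv : volume A ≠ ⊤) (k : ℕ) :
    P {ω | NN (fun n => X n ω) A = k} = poissonMeasure (volume A).toNNReal {k} := by
  have := h.counts 1 (fun _ => A) (fun _ => k) (fun _ => hA) (fun _ => hv)
    (fun i j hij => absurd (Subsingleton.elim i j) hij)
  rw [poissonMeasure_singleton, show ((volume A).toNNReal : ℝ) = (volume A).toReal from rfl]
  simpa [poi] using this

lemma ae_finite [IsProbabilityMeasure P] (h : IsColouredPoisson P p X c) {A : Set (Sp d)}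
    (hA : MeasurableSet A) (hv : volume A ≠ ⊤) :
    ∀ᵐ ω ∂P, NN (fun n => X n ω) A ≠ ⊤ := by
  have tot : ∑' n, poissonMeasure (volume A).toNNReal {n} = 1 := by
    have := measure_univ (μ := poissonMeasure (volume A).toNNReal)
    rw [← this, ← MeasureTheory.lintegral_one, MeasureTheory.lintegral_countable']
    simp
  have e : P (⋃ k : ℕ, {ω | NN (fun n => X n ω) A = k}) = 1 := by
    rw [measure_iUnion]
    · simp_rw [counts_one h hA hv]; exact tot
    · intro k l hkl
      rw [Function.onFun, Set.disjoint_left]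
      intro ω h1 h2
      apply hkl
      have h3 : (k : ℕ∞) = l := h1.symm.trans h2
      exact_mod_cast h3
    · exact fun k => measurableSet_NN h.meas_X hA k
  have e2 : P (⋃ k : ℕ, {ω | NN (fun n => X n ω) A = k})ᶜ = 0 := by
    rw [prob_compl_eq_zero_iff (MeasurableSet.iUnion fun k => measurableSet_NN h.meas_X hA k)]
    exact e
  refine (measure_mono_null ?_ e2)
  intro ω hω
  simp only [mem_compl_iff, mem_iUnion, mem_ofPred_eq, not_exists] at hω ⊢
  intro k hk
  simp [hk] at hω

lemma map_V [IsProbabilityMeasure P] (h : IsColouredPoisson P p X c) {A : Set (Sp d)}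
    (hA : MeasurableSet A) (hv : volume A ≠ ⊤) :
    P.map (V X A) = poissonMeasure (volume A).toNNReal := by
  refine Measure.ext_of_singleton fun k => ?_
  rw [Measure.map_apply (measurable_V h.meas_X hA) (measurableSet_singleton k),
    ← counts_one h hA hv]
  refine measure_congr ?_
  filter_upwards [ae_finite h hA hv] with ω hω
  apply propext
  obtain ⟨l, hl⟩ := ENat.ne_top_iff_exists.1 hω
  change V X A ω = k ↔ NN (fun n => X n ω) A = k
  unfold V
  rw [← hl]
  simp

/-- the joint law of the numbers of points in disjoint sets -/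
lemma map_V_pi [IsProbabilityMeasure P] (h : IsColouredPoisson P p X c) {m : ℕ}
    {A : Fin m → Set (Sp d)} (hA : ∀ i, MeasurableSet (A i)) (hv : ∀ i, volume (A i) ≠ ⊤)
    (hd : ∀ i j, i ≠ j → Disjoint (A i) (A j)) :
    P.map (fun ω i => V X (A i) ω)
      = Measure.pi fun i => poissonMeasure (volume (A i)).toNNReal := by
  refine Measure.ext_of_singleton fun k => ?_
  rw [Measure.map_apply (measurable_pi_lambda _ fun i => measurable_V h.meas_X (hA i))
    (measurableSet_singleton k), Measure.pi_singleton]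
  have e : ∏ i, poissonMeasure (volume (A i)).toNNReal {k i}
      = ENNReal.ofReal (∏ i, poi (volume (A i)).toReal (k i)) := by
    rw [ENNReal.ofReal_prod_of_nonneg]
    · refine Finset.prod_congr rfl fun i _ => ?_
      rw [poissonMeasure_singleton]
      rfl
    · intro i _
      unfold poi
      positivity
  rw [e, ← h.counts m A k hA hv hd]
  refine measure_congr ?_
  have hf : ∀ᵐ ω ∂P, ∀ i, NN (fun n => X n ω) (A i) ≠ ⊤ :=
    ae_all_iff.2 fun i => ae_finite h (hA i) (hv i)
  filter_upwards [hf] with ω hω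
  apply propext
  change (fun i => V X (A i) ω) = k ↔ ∀ i, NN (fun n => X n ω) (A i) = k i
  rw [funext_iff]
  refine forall_congr' fun i => ?_
  obtain ⟨l, hl⟩ := ENat.ne_top_iff_exists.1 (hω i)
  unfold V
  rw [← hl]
  simp

/-- the numbers of points in disjoint sets are independent -/
lemma iIndepFun_V [IsProbabilityMeasure P] (h : IsColouredPoisson P p X c) {m : ℕ}
    {A : Fin m → Set (Sp d)} (hA : ∀ i, MeasurableSet (A i)) (hv : ∀ i, volume (A i) ≠ ⊤)
    (hd : ∀ i j, i ≠ j → Disjoint (A i) (A j)) :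
    iIndepFun (fun i => V X (A i)) P := by
  rw [iIndepFun_iff_map_fun_eq_pi_map fun i => (measurable_V h.meas_X (hA i)).aemeasurable]
  rw [map_V_pi h hA hv hd]
  simp_rw [map_V h (hA _) (hv _)]

/-- the mean of the product of the numbers of points in disjoint sets -/
lemma lintegral_prod_V [IsProbabilityMeasure P] (h : IsColouredPoisson P p X c) {m : ℕ}
    {A : Fin m → Set (Sp d)} (hA : ∀ i, MeasurableSet (A i)) (hv : ∀ i, volume (A i) ≠ ⊤)
    (hd : ∀ i j, i ≠ j → Disjoint (A i) (A j)) :
    ∫⁻ ω, ∏ i, ((NN (fun n => X n ω) (A i) : ℕ∞) : ℝ≥0∞) ∂P = ∏ i, volume (A i) := by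
  have hf : ∀ᵐ ω ∂P, ∀ i, NN (fun n => X n ω) (A i) ≠ ⊤ :=
    ae_all_iff.2 fun i => ae_finite h (hA i) (hv i)
  have e1 : ∫⁻ ω, ∏ i, ((NN (fun n => X n ω) (A i) : ℕ∞) : ℝ≥0∞) ∂P
      = ∫⁻ ω, ∏ i, ((V X (A i) ω : ℕ) : ℝ≥0∞) ∂P := by
    refine lintegral_congr_ae ?_
    filter_upwards [hf] with ω hω
    refine Finset.prod_congr rfl fun i _ => ?_
    obtain ⟨l, hl⟩ := ENat.ne_top_iff_exists.1 (hω i)
    unfold V
    rw [← hl]
    simp
  rw [e1]
  have hI := (iIndepFun_V h hA hv hd).comp (fun _ n => (n : ℝ≥0∞)) (fun _ => measurable_of_countable _)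
  have e2 := lintegral_prod_eq_prod_lintegral_of_indepFun Finset.univ
    (fun i ω => ((V X (A i) ω : ℕ) : ℝ≥0∞)) hI
    (fun i => (measurable_of_countable (fun n : ℕ => (n : ℝ≥0∞))).comp (measurable_V h.meas_X (hA i)))
  rw [e2]
  refine Finset.prod_congr rfl fun i _ => ?_
  have e3 := lintegral_map (μ := P) (measurable_of_countable (fun n : ℕ => (n : ℝ≥0∞)))
    (measurable_V h.meas_X (hA i))
  rw [← e3, map_V h (hA i) (hv i), poisson_mean]
  exact ENNReal.coe_toNNReal (hv i)

end

/-! ## The factorial moment measure -/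

section
variable {d : ℕ} {p : ℝ} {Ω : Type} [MeasurableSpace Ω] {P : Measure Ω}
  {X : ℕ → Ω → Sp d} {c : ℕ → Ω → Bool}

/-- the factorial moment measure -/
noncomputable def M (P : Measure Ω) (X : ℕ → Ω → Sp d) (m : ℕ) : Measure (Fin m → Sp d) :=
  Measure.sum (fun s : {s : Fin m → ℕ // Function.Injective s} =>
    P.map (fun ω i => X (s.1 i) ω))

lemma M_apply (hX : ∀ n, Measurable (X n)) {m : ℕ} {B : Set (Fin m → Sp d)}
    (hB : MeasurableSet B) :
    M P X m B = ∑' s : {s : Fin m → ℕ // Function.Injective s},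
      P {ω | (fun i => X (s.1 i) ω) ∈ B} := by
  rw [M, Measure.sum_apply _ hB]
  congr 1
  funext s
  rw [Measure.map_apply (measurable_pi_lambda _ fun i => hX _) hB]
  rfl

lemma M_pi [IsProbabilityMeasure P] (h : IsColouredPoisson P p X c) {m : ℕ}
    {A : Fin m → Set (Sp d)} (hA : ∀ i, MeasurableSet (A i)) (hv : ∀ i, volume (A i) ≠ ⊤)
    (hd : ∀ i j, i ≠ j → Disjoint (A i) (A j)) :
    M P X m (Set.pi univ A) = ∏ i, volume (A i) := by
  have hmeas : ∀ s : Fin m → ℕ, MeasurableSet {ω | (fun i => X (s i) ω) ∈ Set.pi univ A} :=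
    fun s => (measurable_pi_lambda _ fun i => h.meas_X (s i)) (MeasurableSet.univ_pi hA)
  rw [M_apply h.meas_X (MeasurableSet.univ_pi hA)]
  have e1 : ∑' s : {s : Fin m → ℕ // Function.Injective s},
      P {ω | (fun i => X (s.1 i) ω) ∈ Set.pi univ A}
      = ∑' s : Fin m → ℕ, P {ω | (fun i => X (s i) ω) ∈ Set.pi univ A} := by
    change ∑' s : ({s : Fin m → ℕ | Function.Injective s} : Set (Fin m → ℕ)),
      P {ω | (fun i => X (s.1 i) ω) ∈ Set.pi univ A} = _
    rw [tsum_subtype {s : Fin m → ℕ | Function.Injective s}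
      (fun s => P {ω | (fun i => X (s i) ω) ∈ Set.pi univ A})]
    congr 1
    funext s
    by_cases hs : Function.Injective s
    · rw [indicator_of_mem (by exact hs)]
    · rw [indicator_of_notMem (by exact hs)]
      have : {ω | (fun i => X (s i) ω) ∈ Set.pi univ A} = ∅ := by
        rw [Set.eq_empty_iff_forall_notMem]
        intro ω hω
        apply hs
        intro i j hij
        by_contra hne
        have h1 : X (s i) ω ∈ A i := hω i (mem_univ i)
        have h2 : X (s j) ω ∈ A j := hω j (mem_univ j)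
        rw [← hij] at h2
        exact Set.disjoint_left.1 (hd i j hne) h1 h2
      rw [this, measure_empty]
  rw [e1, ← lintegral_prod_V h hA hv hd]
  have e2 : ∀ s : Fin m → ℕ, P {ω | (fun i => X (s i) ω) ∈ Set.pi univ A}
      = ∫⁻ ω, (Set.pi univ (fun i => {n | X n ω ∈ A i})).indicator (fun _ => (1 : ℝ≥0∞)) s ∂P := by
    intro s
    rw [← lintegral_indicator_one (hmeas s)]
    rfl
  simp_rw [e2]
  rw [← lintegral_tsum]
  · congr 1
    funext ω
    rw [← tsum_subtype (Set.pi univ (fun i => {n | X n ω ∈ A i})) (fun _ => (1 : ℝ≥0∞)),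
      ENNReal.tsum_set_one, encard_pi_eq_prod_encard]
    rw [← ENat.toENNRealRingHom_apply, map_prod]
    rfl
  · intro s
    exact (measurable_one.indicator (hmeas s)).aemeasurable

lemma M_restrict [IsProbabilityMeasure P] (h : IsColouredPoisson P p X c) {m : ℕ}
    {A : Fin m → Set (Sp d)} (hA : ∀ i, MeasurableSet (A i)) (hv : ∀ i, volume (A i) ≠ ⊤)
    (hd : ∀ i j, i ≠ j → Disjoint (A i) (A j)) {B : Set (Fin m → Sp d)} (hB : MeasurableSet B) :
    M P X m (B ∩ Set.pi univ A) = volume (B ∩ Set.pi univ A) := by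
  have e : (M P X m).restrict (Set.pi univ A)
      = (volume : Measure (Fin m → Sp d)).restrict (Set.pi univ A) := by
    have e1 : (volume : Measure (Fin m → Sp d)).restrict (Set.pi univ A)
        = Measure.pi (fun i => (volume : Measure (Sp d)).restrict (A i)) :=
      Measure.restrict_pi_pi _ A
    rw [e1]
    symm
    refine Measure.pi_eq fun s hs => ?_
    rw [Measure.restrict_apply (MeasurableSet.univ_pi hs), ← Set.pi_inter_distrib,
      M_pi h (fun i => (hs i).inter (hA i))
        (fun i => ne_top_of_le_ne_top (hv i) (measure_mono inter_subset_right))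
        (fun i j hij => (hd i j hij).mono inter_subset_right inter_subset_right)]
    refine Finset.prod_congr rfl fun i _ => ?_
    rw [Measure.restrict_apply (hs i)]
  rw [← Measure.restrict_apply hB, e, Measure.restrict_apply hB]

/-! ## Dyadic cells -/

/-- number of the dyadic cell of side `2 ^ (-k)` -/
noncomputable def fl (k : ℕ) (y : Sp d) : Fin d → ℤ := fun i => ⌊(2 : ℝ) ^ k * y i⌋

/-- dyadic cell -/
def dc (k : ℕ) (b : Fin d → ℤ) : Set (Sp d) := {y | fl k y = b}

lemma measurable_fl (k : ℕ) : Measurable (fl (d := d) k) := by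
  refine measurable_pi_lambda _ fun i => ?_
  exact Int.measurable_floor.comp (measurable_const.mul
    (EuclideanSpace.proj (𝕜 := ℝ) i).continuous.measurable)

lemma measurableSet_dc (k : ℕ) (b : Fin d → ℤ) : MeasurableSet (dc k b) :=
  measurable_fl k (measurableSet_singleton b)

lemma volume_dc (hd : 0 < d) (k : ℕ) (b : Fin d → ℤ) :
    volume (dc k b) ≤ ENNReal.ofReal ((1 / 2) ^ k) := by
  have h := (PiLp.volume_preserving_toLp (Fin d)).measure_preimage
    (measurableSet_dc k b).nullMeasurableSet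
  rw [← h]
  have h2 : (0 : ℝ) < 2 ^ k := by positivity
  have : (WithLp.toLp 2 : (Fin d → ℝ) → _) ⁻¹' (dc k b)
      = Set.pi univ fun i => Ico ((b i : ℝ) / 2 ^ k) (((b i : ℝ) + 1) / 2 ^ k) := by
    ext x
    simp only [dc, fl, mem_preimage, mem_ofPred_eq, Set.mem_pi, mem_univ, forall_true_left, mem_Ico,
      funext_iff]
    refine forall_congr' fun i => ?_
    rw [Int.floor_eq_iff, div_le_iff₀ h2, lt_div_iff₀ h2, mul_comm (x i)]
  rw [this, Real.volume_pi_Ico]
  have e : ∀ i : Fin d, ENNReal.ofReal (((b i : ℝ) + 1) / 2 ^ k - (b i : ℝ) / 2 ^ k)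
      = ENNReal.ofReal ((1 / 2) ^ k) := by
    intro i
    congr 1
    rw [← sub_div, add_sub_cancel_left, one_div_pow]
  simp_rw [e]
  rw [Finset.prod_const, Finset.card_univ, Fintype.card_fin, ← ENNReal.ofReal_pow (by positivity)]
  refine ENNReal.ofReal_le_ofReal ?_
  refine pow_le_of_le_one (by positivity) ?_ hd.ne'
  exact pow_le_one₀ (by norm_num) (by norm_num)

lemma fl_mono {k l : ℕ} (hkl : k ≤ l) {y y' : Sp d} (h : fl l y = fl l y') : fl k y = fl k y' := by
  induction l, hkl using Nat.le_induction with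
  | base => exact h
  | succ l _ ih =>
    apply ih
    funext i
    have h1 : ⌊(2 : ℝ) ^ (l + 1) * y i⌋ = ⌊(2 : ℝ) ^ (l + 1) * y' i⌋ := congrFun h i
    have key : ∀ a b : ℝ, ⌊2 * a⌋ = ⌊2 * b⌋ → ⌊a⌋ ≤ ⌊b⌋ := by
      intro a b hab
      rw [Int.le_floor]
      have h2 : ((2 * ⌊a⌋ : ℤ) : ℝ) ≤ 2 * a := by
        push_cast
        linarith [Int.floor_le a]
      have h3 : 2 * ⌊a⌋ ≤ ⌊2 * a⌋ := Int.le_floor.2 h2
      rw [hab] at h3
      have h4 : ((2 * ⌊a⌋ : ℤ) : ℝ) ≤ 2 * b := Int.le_floor.1 h3
      push_cast at h4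
      linarith
    have e : ∀ t : ℝ, (2 : ℝ) ^ (l + 1) * t = 2 * ((2 : ℝ) ^ l * t) := by
      intro t; rw [pow_succ]; ring
    rw [e, e] at h1
    exact le_antisymm (key _ _ h1) (key _ _ h1.symm)

lemma exists_fl_ne {y y' : Sp d} (h : y ≠ y') : ∃ k, fl k y ≠ fl k y' := by
  have : ∃ i, y i ≠ y' i := by
    by_contra hc
    push Not at hc
    exact h (by ext i; exact hc i)
  obtain ⟨i, hi⟩ := this
  have hpos : 0 < |y i - y' i| := abs_pos.2 (sub_ne_zero.2 hi)
  obtain ⟨k, hk⟩ := pow_unbounded_of_one_lt (1 / |y i - y' i|) (by norm_num : (1 : ℝ) < 2)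
  refine ⟨k, fun hfl => ?_⟩
  have h1 : ⌊(2 : ℝ) ^ k * y i⌋ = ⌊(2 : ℝ) ^ k * y' i⌋ := congrFun hfl i
  have h2 := Int.abs_sub_lt_one_of_floor_eq_floor h1
  rw [← mul_sub, abs_mul, abs_of_pos (by positivity)] at h2
  rw [div_lt_iff₀ hpos] at hk
  linarith

/-- tuples of points in different cells -/
def sep (m k : ℕ) : Set (Fin m → Sp d) := {y | Function.Injective fun i => fl k (y i)}

lemma measurableSet_sep (m k : ℕ) : MeasurableSet (sep (d := d) m k) := by
  have : sep (d := d) m k = (fun (y : Fin m → Sp d) i => fl k (y i)) ⁻¹'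
      {b | Function.Injective b} := rfl
  rw [this]
  have h1 : Measurable (fun (y : Fin m → Sp d) i => fl k (y i)) :=
    measurable_pi_lambda _ fun i => (measurable_fl k).comp (measurable_pi_apply i)
  exact h1 (Set.to_countable _).measurableSet

lemma sep_mono (m : ℕ) : Monotone (sep (d := d) m) := by
  intro k l hkl y hy i j hij
  exact hy (fl_mono hkl hij)

lemma iUnion_sep (m : ℕ) : ⋃ k, sep (d := d) m k = {y | Function.Injective y} := by
  ext y
  simp only [mem_iUnion, mem_ofPred_eq]
  constructor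
  · rintro ⟨k, hk⟩ i j hij
    apply hk
    simp only [hij]
  · intro hy
    have h1 : ∀ e : Fin m × Fin m, ∃ k, e.1 ≠ e.2 → fl k (y e.1) ≠ fl k (y e.2) := by
      intro e
      by_cases he : e.1 = e.2
      · exact ⟨0, fun h => absurd he h⟩
      · obtain ⟨k, hk⟩ := exists_fl_ne (fun h => he (hy h))
        exact ⟨k, fun _ => hk⟩
    choose k hk using h1
    refine ⟨Finset.univ.sup k, fun i j hij => ?_⟩
    by_contra hne
    exact hk (i, j) hne (fl_mono (Finset.le_sup (f := k) (Finset.mem_univ (i, j))) hij)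

lemma M_sep [IsProbabilityMeasure P] (h : IsColouredPoisson P p X c) (hd : 0 < d) {m : ℕ}
    {B : Set (Fin m → Sp d)} (hB : MeasurableSet B) (k : ℕ) :
    M P X m (B ∩ sep m k) = volume (B ∩ sep m k) := by
  have e : B ∩ sep m k = ⋃ b : {b : Fin m → (Fin d → ℤ) // Function.Injective b},
      B ∩ Set.pi univ (fun i => dc k (b.1 i)) := by
    ext y
    simp only [mem_inter_iff, mem_iUnion, Set.mem_pi, mem_univ, forall_true_left]
    constructor
    · rintro ⟨h1, h2⟩
      exact ⟨⟨fun i => fl k (y i), h2⟩, h1, fun i => rfl⟩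
    · rintro ⟨b, h1, h2⟩
      refine ⟨h1, ?_⟩
      have : (fun i => fl k (y i)) = b.1 := funext h2
      change Function.Injective fun i => fl k (y i)
      rw [this]
      exact b.2
  have hm : ∀ b : {b : Fin m → (Fin d → ℤ) // Function.Injective b},
      MeasurableSet (B ∩ Set.pi univ (fun i => dc k (b.1 i))) := fun b =>
    hB.inter (MeasurableSet.univ_pi fun i => measurableSet_dc k _)
  have hdj : Pairwise (Function.onFun Disjoint
      fun b : {b : Fin m → (Fin d → ℤ) // Function.Injective b} =>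
        B ∩ Set.pi univ (fun i => dc k (b.1 i))) := by
    intro b b' hb
    rw [Function.onFun, Set.disjoint_left]
    rintro y ⟨-, h1⟩ ⟨-, h2⟩
    apply hb
    apply Subtype.ext
    funext i
    have h3 : fl k (y i) = b.1 i := h1 i (mem_univ i)
    have h4 : fl k (y i) = b'.1 i := h2 i (mem_univ i)
    rw [← h3, ← h4]
  rw [e, measure_iUnion hdj hm, measure_iUnion hdj hm]
  congr 1
  funext b
  refine M_restrict h (fun i => measurableSet_dc k _) (fun i => ?_) (fun i j hij => ?_) hB
  · exact ne_top_of_le_ne_top ENNReal.ofReal_ne_top (volume_dc hd k _)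
  · rw [Set.disjoint_left]
    intro y h1 h2
    apply hij
    apply b.2
    exact h1.symm.trans h2

/-! ## The process is simple -/

lemma poisson_two (v : ℝ≥0) : poissonMeasure v {n | 2 ≤ n} ≤ v * v := by
  have tot : ∑' n, poissonMeasure v {n} = 1 := by
    have := measure_univ (μ := poissonMeasure v)
    rw [← this, ← MeasureTheory.lintegral_one, MeasureTheory.lintegral_countable']
    simp
  have h1 : poissonMeasure v {n | 2 ≤ n}
      ≤ ∫⁻ n : ℕ, ((n.descFactorial 2 : ℕ) : ℝ≥0∞) ∂(poissonMeasure v) := by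
    rw [← lintegral_indicator_one (Set.to_countable _).measurableSet]
    refine lintegral_mono fun n => ?_
    by_cases hn : 2 ≤ n
    · rw [indicator_of_mem (by exact hn)]
      have h2 : 0 < n.descFactorial 2 := Nat.descFactorial_pos.2 hn
      have h3 : (1 : ℝ≥0∞) ≤ ((n.descFactorial 2 : ℕ) : ℝ≥0∞) := by exact_mod_cast h2
      exact h3
    · rw [indicator_of_notMem (by exact hn)]
      exact zero_le
  refine h1.trans (le_of_eq ?_)
  rw [MeasureTheory.lintegral_countable']
  have key : ∀ n : ℕ, (((n + 2).descFactorial 2 : ℕ) : ℝ≥0∞) * poissonMeasure v {n + 2}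
      = (v * v) * poissonMeasure v {n} := by
    intro n
    rw [poissonMeasure_singleton, poissonMeasure_singleton]
    rw [← ENNReal.ofReal_natCast, ← ENNReal.ofReal_coe_nnreal, ← ENNReal.ofReal_mul (by positivity),
      ← ENNReal.ofReal_mul (by positivity), ← ENNReal.ofReal_mul (by positivity)]
    congr 1
    have h1 : (n.factorial : ℝ) * ((n + 2).descFactorial 2 : ℕ) = ((n + 2).factorial : ℝ) := by
      have := Nat.factorial_mul_descFactorial (Nat.le_add_left 2 n)
      rw [Nat.add_sub_cancel] at this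
      exact_mod_cast this
    have h2 : (n.factorial : ℝ) ≠ 0 := by exact_mod_cast n.factorial_ne_zero
    have h3 : ((n + 2).factorial : ℝ) ≠ 0 := by exact_mod_cast (n + 2).factorial_ne_zero
    rw [mul_div_assoc', mul_div_assoc', div_eq_div_iff h3 h2, ← h1]
    ring
  rw [← Summable.sum_add_tsum_nat_add' (k := 2) ENNReal.summable]
  simp_rw [key]
  rw [ENNReal.tsum_mul_left, tot, Finset.sum_eq_zero]
  · simp
  · intro n hn
    rw [Nat.descFactorial_eq_zero_iff_lt.2 (Finset.mem_range.1 hn)]
    simp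

lemma two_points [IsProbabilityMeasure P] (h : IsColouredPoisson P p X c) {A : Set (Sp d)}
    (hA : MeasurableSet A) (hv : volume A ≠ ⊤) {a b : ℕ} (hab : a ≠ b) :
    P {ω | X a ω ∈ A ∧ X b ω ∈ A} ≤ volume A * volume A := by
  have h1 : P {ω | X a ω ∈ A ∧ X b ω ∈ A} ≤ P (V X A ⁻¹' {n | 2 ≤ n}) := by
    refine measure_mono_ae ?_
    filter_upwards [ae_finite h hA hv] with ω hω hω2
    obtain ⟨l, hl⟩ := ENat.ne_top_iff_exists.1 hω
    change 2 ≤ V X A ω
    unfold V
    rw [← hl]
    simp only [ENat.toNat_natCast]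
    have h3 : ({a, b} : Set ℕ).encard ≤ NN (fun n => X n ω) A := by
      apply encard_le_encard
      rintro n (rfl | rfl)
      · exact hω2.1
      · exact hω2.2
    rw [encard_pair hab, ← hl] at h3
    exact_mod_cast h3
  refine h1.trans ?_
  rw [← Measure.map_apply (measurable_V h.meas_X hA) (Set.to_countable _).measurableSet,
    map_V h hA hv]
  refine (poisson_two _).trans (le_of_eq ?_)
  rw [ENNReal.coe_toNNReal hv]

lemma simple_in [IsProbabilityMeasure P] (h : IsColouredPoisson P p X c) (hd : 0 < d)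
    {Q : Set (Sp d)} (hQ : MeasurableSet Q) (hv : volume Q ≠ ⊤) {a b : ℕ} (hab : a ≠ b) :
    P {ω | X a ω ∈ Q ∧ X a ω = X b ω} = 0 := by
  have h1 : ∀ k : ℕ, P {ω | X a ω ∈ Q ∧ X a ω = X b ω}
      ≤ ENNReal.ofReal ((1 / 2) ^ k) * volume Q := by
    intro k
    have h2 : {ω | X a ω ∈ Q ∧ X a ω = X b ω}
        ⊆ ⋃ z : Fin d → ℤ, {ω | X a ω ∈ Q ∩ dc k z ∧ X b ω ∈ Q ∩ dc k z} := by
      rintro ω ⟨hω1, hω2⟩
      rw [mem_iUnion]
      refine ⟨fl k (X a ω), ⟨hω1, rfl⟩, ?_⟩
      rw [← hω2]
      exact ⟨hω1, rfl⟩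
    refine (measure_mono h2).trans ((measure_iUnion_le _).trans ?_)
    have h3 : ∀ z : Fin d → ℤ, P {ω | X a ω ∈ Q ∩ dc k z ∧ X b ω ∈ Q ∩ dc k z}
        ≤ ENNReal.ofReal ((1 / 2) ^ k) * volume (Q ∩ dc k z) := by
      intro z
      refine (two_points h (hQ.inter (measurableSet_dc k z))
        (ne_top_of_le_ne_top hv (measure_mono inter_subset_left)) hab).trans ?_
      gcongr
      exact (measure_mono inter_subset_right).trans (volume_dc hd k z)
    refine (ENNReal.tsum_le_tsum h3).trans ?_
    rw [ENNReal.tsum_mul_left, ← measure_iUnion]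
    · gcongr
      exact iUnion_subset fun z => inter_subset_left
    · intro z z' hz
      rw [Function.onFun, Set.disjoint_left]
      rintro y ⟨-, hy1⟩ ⟨-, hy2⟩
      exact hz (hy1.symm.trans hy2)
    · exact fun z => hQ.inter (measurableSet_dc k z)
  have h4 : Tendsto (fun k : ℕ => ENNReal.ofReal ((1 / 2) ^ k) * volume Q) atTop (𝓝 0) := by
    have h5 : Tendsto (fun k : ℕ => ENNReal.ofReal ((1 / 2) ^ k)) atTop (𝓝 0) := by
      rw [← ENNReal.ofReal_zero]
      exact ENNReal.tendsto_ofReal (tendsto_pow_atTop_nhds_zero_of_lt_one (by norm_num) (by norm_num))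
    have h6 := ENNReal.Tendsto.mul_const h5 (Or.inr hv)
    rwa [zero_mul] at h6
  exact le_antisymm (ge_of_tendsto' h4 h1) zero_le

/-- the points are distinct -/
lemma simple [IsProbabilityMeasure P] (h : IsColouredPoisson P p X c) (hd : 0 < d)
    {a b : ℕ} (hab : a ≠ b) : P {ω | X a ω = X b ω} = 0 := by
  have h1 : {ω | X a ω = X b ω} = ⋃ z : Fin d → ℤ, {ω | X a ω ∈ dc 0 z ∧ X a ω = X b ω} := by
    ext ω
    simp only [mem_ofPred_eq, mem_iUnion]
    constructor
    · intro hω; exact ⟨fl 0 (X a ω), rfl, hω⟩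
    · rintro ⟨_, -, hω⟩; exact hω
  rw [h1, measure_iUnion_null_iff]
  intro z
  exact simple_in h hd (measurableSet_dc 0 z)
    (ne_top_of_le_ne_top ENNReal.ofReal_ne_top (volume_dc hd 0 z)) hab

lemma ae_injective [IsProbabilityMeasure P] (h : IsColouredPoisson P p X c) (hd : 0 < d) :
    ∀ᵐ ω ∂P, Function.Injective fun n => X n ω := by
  have h1 : ∀ᵐ ω ∂P, ∀ a b : ℕ, a ≠ b → X a ω ≠ X b ω := by
    rw [ae_all_iff]; intro a
    rw [ae_all_iff]; intro b
    by_cases hab : a = b
    · exact Eventually.of_forall fun _ hn => absurd hab hn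
    · have : ∀ᵐ ω ∂P, ¬ X a ω = X b ω := by
        rw [ae_iff]
        simp only [not_not]
        exact simple h hd hab
      filter_upwards [this] with ω hω _ using hω
  filter_upwards [h1] with ω hω a b hab
  by_contra hne
  exact hω a b hne hab

/-- The factorial moment measures of the Poisson process are Lebesgue measure (upper bound). -/
theorem M_le [IsProbabilityMeasure P] (h : IsColouredPoisson P p X c) (hd : 0 < d) {m : ℕ}
    {B : Set (Fin m → Sp d)} (hB : MeasurableSet B) : M P X m B ≤ volume B := by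
  have hinj : MeasurableSet {y : Fin m → Sp d | Function.Injective y} := by
    rw [← iUnion_sep]
    exact MeasurableSet.iUnion fun k => measurableSet_sep m k
  have h0 : M P X m {y : Fin m → Sp d | Function.Injective y}ᶜ = 0 := by
    rw [M_apply h.meas_X hinj.compl, ENNReal.tsum_eq_zero]
    intro s
    have := ae_injective h hd
    refine measure_mono_null ?_ this
    intro ω hω hinjω
    apply hω
    intro i j hij
    exact s.2 (hinjω hij)
  have h1 : M P X m B ≤ M P X m (B ∩ {y : Fin m → Sp d | Function.Injective y}) := by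
    have h2 := measure_inter_add_sdiff (μ := M P X m) B hinj
    rw [← h2]
    have h3 : M P X m (B \ {y : Fin m → Sp d | Function.Injective y}) = 0 :=
      measure_mono_null (fun y hy => hy.2) h0
    rw [h3, add_zero]
  refine h1.trans ?_
  rw [← iUnion_sep, inter_iUnion, Monotone.measure_iUnion]
  · refine iSup_le fun k => ?_
    rw [M_sep h hd hB k]
    exact measure_mono inter_subset_left
  · intro k l hkl
    exact inter_subset_inter_right B (sep_mono m hkl)

end

/-- T2a: the factorial moment measures are at most Lebesgue measure. -/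
theorem stmtT2a : StmtT2a := by
  intro d p _ _ Ω _ P _ X c hd h m B hB
  rw [← M_apply h.meas_X hB]
  exact M_le h hd hB

end Pool.Agent.Lib_helper35.ASM
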